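import Pool.Agent.U898.SB.Kirby

/-!
# Morse functions without critical points of index one, and collapsing maps

Kirby's question asks whether every closed simply connected smooth 4-manifold has a handle
decomposition without 1-handles, that is a Morse function without critical points of index one. We
consider the question up to one point: `HasMorseOffPoint M` says that `M` has a continuous function
which is smooth and Morse without critical points of index one off one point, and which has a strict
local maximum at this point and no critical points in a punctured neighbourhood of it. So the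
exceptional point takes the place of a 4-handle, which is perhaps not a standard ball; there are only
finitely many other critical points, as they are isolated.

Let `M` and `N` be closed connected smooth 4-manifolds and `f : M → N` a continuous surjection, not
necessarily injective, such that for a closed set `B` of one-dimensional Hausdorff measure zero in `N`

* `f` is injective and a local diffeomorphism over the complement of `B`;
* the fibres over the points of `B` have neighbourhoods which embed smoothly in `ℝ⁴`.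

There may be uncountably many fibres which are not points, `f` can be constant on open sets, and the
fibres can be wild. `M` and `N` are not assumed to be homeomorphic. Then:

(1) there is a homeomorphism `M → N` which is a local diffeomorphism at all points but one, and the
image of the exceptional point can be prescribed;
(2) the question up to one point has the same answer for `M` and `N`;
(3) if `N` has a Morse function without critical points of index one, then `M` has a function as above,
with a strict local maximum at the exceptional point.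

Proof. The set `B` lies in an open cell of `N` (team library `U212/SM`), the preimage of this cell is
an open cell of `M` (recognition of `ℝ^n` by collapsing maps, `U898/CM`), and the map extends from the
complement over the cells with one exceptional point (`N550/KH`). The diffeomorphisms of `N` act
transitively, so that the exceptional value can be moved to the exceptional point, or to a
maximum, of the function on `N`.
-/

set_option autoImplicit false

open Set Filter Topology Metric Function
open scoped Manifold ContDiff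

noncomputable section

namespace Pool.Agent.Results.MP_f18604_gt.CollapsingInvariance

/-- `ℝ⁴` -/
abbrev R4 : Type := EuclideanSpace ℝ (Fin 4)

/-- the quadratic form `-z₁² - ... - z_k² + z_(k+1)² + ... + z₄²` -/
def quad (k : ℕ) (z : R4) : ℝ := ∑ i : Fin 4, if (i : ℕ) < k then -(z i) ^ 2 else (z i) ^ 2

section defs

variable {M N : Type} [TopologicalSpace M] [ChartedSpace R4 M] [TopologicalSpace N]
  [ChartedSpace R4 N]

/-- `f` is a local diffeomorphism (of class `C^∞`) at `x` -/
def LocDiff (f : M → N) (x : M) : Prop := IsLocalDiffeomorphAt (𝓡 4) (𝓡 4) ∞ f x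

/-- a set with one-dimensional Hausdorff measure zero (in the preferred charts) -/
def LengthZero (B : Set N) : Prop :=
  ∀ x₀ : N, MeasureTheory.Measure.hausdorffMeasure 1
    (chartAt R4 x₀ '' ((chartAt R4 x₀).source ∩ B) : Set R4) = 0

/-- the set `F` has an open neighbourhood `U` with a smooth embedding `i` in `ℝ⁴` -/
def EmbedsNear (F : Set M) : Prop :=
  ∃ (U : Set M) (i : M → R4), IsOpen U ∧ F ⊆ U ∧ InjOn i U ∧ ∀ x ∈ U, LocDiff i x

/-- over the complement of `B` the map `f` is injective and a local diffeomorphism -/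
def GoodOff (f : M → N) (B : Set N) : Prop :=
  ∀ x, f x ∉ B → LocDiff f x ∧ ∀ y, f y = f x → y = x

/-- the fibres over the points of `B` have neighbourhoods which embed in `ℝ⁴` -/
def FibresEmbed (f : M → N) (B : Set N) : Prop := ∀ y ∈ B, EmbedsNear (f ⁻¹' {y})

/-- `f` is a collapsing map with exceptional values in `B` -/
structure IsCollapsing (f : M → N) (B : Set N) : Prop where
  continuous : Continuous f
  surjective : Surjective f
  closed : IsClosed B
  thin : LengthZero B
  good : GoodOff f B
  fibres : FibresEmbed f B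

/-- in some smooth coordinates near `x` (given by the inverse of `c`, with `c 0 = x`), the function `φ`
is `φ x + q` -/
def FormAt (φ : M → ℝ) (x : M) (q : R4 → ℝ) : Prop :=
  ∃ c : R4 → M, LocDiff c 0 ∧ c 0 = x ∧ ∀ᶠ z in 𝓝 0, φ (c z) = φ x + q z

/-- `φ` is of class `C^∞` at `x` -/
def SmoothAt (φ : M → ℝ) (x : M) : Prop := ContMDiffAt (𝓡 4) 𝓘(ℝ, ℝ) ∞ φ x

/-- the derivative of `φ` at `x`, as a linear form on `ℝ⁴` (in the preferred chart) -/
def der (φ : M → ℝ) (x : M) : R4 →L[ℝ] ℝ := mfderiv (𝓡 4) 𝓘(ℝ, ℝ) φ x

/-- `x` is a critical point of `φ` -/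
def IsCritical (φ : M → ℝ) (x : M) : Prop := der φ x = 0

/-- `φ` is smooth at `x` and `x` is a regular point of `φ` -/
def RegularAt (φ : M → ℝ) (x : M) : Prop := SmoothAt φ x ∧ ¬ IsCritical φ x

/-- `x` is a regular point of `φ`, or a nondegenerate critical point with index different from one
(in smooth coordinates `φ` is, up to a constant, a quadratic form of index `k ≠ 1`) -/
def MorseNoOneAt (φ : M → ℝ) (x : M) : Prop :=
  RegularAt φ x ∨ ∃ k : ℕ, k ≤ 4 ∧ k ≠ 1 ∧ FormAt φ x (quad k)

end defs

/-- `M` has a Morse function without critical points of index one -/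
def HasMorse (M : Type) [TopologicalSpace M] [ChartedSpace R4 M] : Prop :=
  ∃ φ : M → ℝ, Continuous φ ∧ ∀ x, MorseNoOneAt φ x

/-- `M` has a continuous function which is, off one point, a Morse function without critical
points of index one, and which has a strict local maximum at this point and no critical points in
a punctured neighbourhood of it -/
def HasMorseOffPoint (M : Type) [TopologicalSpace M] [ChartedSpace R4 M] : Prop :=
  ∃ (φ : M → ℝ) (x₀ : M), Continuous φ ∧ (∀ᶠ x in 𝓝[≠] x₀, φ x < φ x₀ ∧ RegularAt φ x) ∧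
    ∀ x, x ≠ x₀ → MorseNoOneAt φ x

/-- for each point `y` of `N` there is a homeomorphism `M → N` which is a local diffeomorphism at all
points but one, and which maps this point to `y` -/
def HomeoOffPoint (M N : Type) [TopologicalSpace M] [ChartedSpace R4 M] [TopologicalSpace N]
    [ChartedSpace R4 N] : Prop :=
  ∀ y : N, ∃ (G : M ≃ₜ N) (x₀ : M), G x₀ = y ∧ ∀ x, x ≠ x₀ → LocDiff G x

section proofs

variable {M N : Type} [TopologicalSpace M] [ChartedSpace R4 M] [TopologicalSpace N]
  [ChartedSpace R4 N]

theorem FormAt.pull {φ : N → ℝ} {G : M → N} {x : M} (hG : LocDiff G x) {q : R4 → ℝ}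
    (h : FormAt φ (G x) q) : FormAt (fun a => φ (G a)) x q := by
  obtain ⟨c, hc, hc0, hq⟩ := h
  obtain ⟨c', h1, h2, h3⟩ := Pool.Agent.U898.SB.Kirby.pull hG hc hc0
  refine ⟨c', h1, h2, ?_⟩
  filter_upwards [h3, hq] with z hz hz2
  show φ (G (c' z)) = φ (G x) + q z
  rw [hz, hz2]

theorem RegularAt.congr {φ ψ : M → ℝ} {x : M} (h : RegularAt φ x) (he : ψ =ᶠ[𝓝 x] φ) :
    RegularAt ψ x := by
  refine ⟨ContMDiffAt.congr_of_eventuallyEq h.1 he, fun hc => h.2 ?_⟩
  unfold IsCritical der at hc ⊢
  have h5 := he.mfderiv_eq (I := 𝓡 4) (I' := 𝓘(ℝ, ℝ))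
  exact h5.symm.trans hc

theorem RegularAt.pull {φ : N → ℝ} {G : M → N} {x : M} (hG : LocDiff G x)
    (h : RegularAt φ (G x)) : RegularAt (fun a => φ (G a)) x := by
  have hs : ContMDiffAt (𝓡 4) 𝓘(ℝ, ℝ) ∞ (fun a => φ (G a)) x :=
    ContMDiffAt.comp (g := φ) (f := G) x h.1 hG.contMDiffAt
  refine ⟨hs, fun hc => h.2 ?_⟩
  obtain ⟨p, hp1, hp2, hp3, hp4⟩ := Pool.Agent.Y522.LD.exists_inverse (n := 4) hG
  have he : φ =ᶠ[𝓝 (G x)] (fun a => φ (G a)) ∘ p := by
    filter_upwards [hp4] with z hz
    show φ z = φ (G (p z))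
    rw [hz]
  unfold IsCritical der at hc ⊢
  have h1 : MDifferentiableAt (𝓡 4) 𝓘(ℝ, ℝ) (fun a => φ (G a)) (p (G x)) := by
    rw [hp2]
    exact hs.mdifferentiableAt (by simp)
  have h2 : MDifferentiableAt (𝓡 4) (𝓡 4) p (G x) := hp1.contMDiffAt.mdifferentiableAt (by simp)
  have h3 : mfderiv (𝓡 4) 𝓘(ℝ, ℝ) (fun a => φ (G a)) (p (G x)) = 0 := by
    rw [hp2]
    exact hc
  have h4 := mfderiv_comp (G x) h1 h2
  rw [h3] at h4
  have h5 := he.mfderiv_eq (I := 𝓡 4) (I' := 𝓘(ℝ, ℝ))
  ext v
  have h6 := congrArg (fun L => L v) h5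
  have h7 := congrArg (fun L => L v) h4
  exact h6.trans h7

theorem MorseNoOneAt.pull {φ : N → ℝ} {G : M → N} {x : M} (hG : LocDiff G x)
    (h : MorseNoOneAt φ (G x)) : MorseNoOneAt (fun a => φ (G a)) x := by
  rcases h with h | ⟨k, hk, hk1, h⟩
  · exact Or.inl (h.pull hG)
  · exact Or.inr ⟨k, hk, hk1, h.pull hG⟩

theorem transfer (h : HomeoOffPoint M N) (hN : HasMorseOffPoint N) : HasMorseOffPoint M := by
  obtain ⟨φ, y₀, hφ, hmax, hm⟩ := hN
  obtain ⟨G, x₀, hGx, hG⟩ := h y₀
  refine ⟨fun x => φ (G x), x₀, hφ.comp G.continuous, ?_, fun x hx => ?_⟩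
  · have h1 : Tendsto G (𝓝[≠] x₀) (𝓝[≠] y₀) := by
      rw [← hGx]
      exact G.continuous.continuousAt.tendsto.inf
        (tendsto_principal_principal.2 fun a ha hcon => ha (G.injective hcon))
    have h2 : ∀ᶠ x in 𝓝[≠] x₀, φ (G x) < φ (G x₀) ∧ RegularAt φ (G x) := by
      rw [hGx]
      exact h1.eventually hmax
    filter_upwards [h2, self_mem_nhdsWithin] with x hx hne
    exact ⟨hx.1, hx.2.pull (hG x hne)⟩
  · refine (hm (G x) fun hcon => hx (G.injective (hcon.trans hGx.symm))).pull (hG x hx)

theorem quad_four (z : R4) : quad 4 z = -‖z‖ ^ 2 := by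
  unfold quad
  rw [EuclideanSpace.norm_sq_eq, Fin.sum_univ_four, Fin.sum_univ_four]
  simp
  ring

/-- the nonzero points are regular points of `a - ‖z‖²` -/
theorem regular_quad (a : ℝ) {w : R4} (hw : w ≠ 0) : RegularAt (fun z : R4 => a + quad 4 z) w := by
  have h0 : (fun z : R4 => a + quad 4 z) = fun z => a - ‖z‖ ^ 2 := by
    funext z
    rw [quad_four]
    ring
  rw [h0]
  have h1 : HasFDerivAt (fun z : R4 => a - ‖z‖ ^ 2) (-(2 • (innerSL ℝ w))) w :=
    (hasStrictFDerivAt_norm_sq w).hasFDerivAt.const_sub a
  have h2 : ContDiff ℝ ∞ (fun z : R4 => a - ‖z‖ ^ 2) := contDiff_const.sub (contDiff_norm_sq ℝ)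
  refine ⟨h2.contMDiff.contMDiffAt, fun hc => hw ?_⟩
  unfold IsCritical der at hc
  rw [mfderiv_eq_fderiv, h1.fderiv] at hc
  have h3 : (-(2 • (innerSL ℝ w)) : R4 →L[ℝ] ℝ) w = 0 := by
    rw [hc]
    rfl
  simp at h3
  exact h3

/-- at a global maximum, a Morse function is `- ‖z‖²` in suitable coordinates -/
theorem strict_max [IsManifold (𝓡 4) ∞ N] {φ : N → ℝ} {y : N} (hy : ∀ z, φ z ≤ φ y)
    (h : MorseNoOneAt φ y) : ∀ᶠ x in 𝓝[≠] y, φ x < φ y ∧ RegularAt φ x := by
  have line : ∀ (i : Fin 4) (P : R4 → Prop), (∀ᶠ z in 𝓝 0, P z) →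
      ∃ t : ℝ, 0 < t ∧ P (EuclideanSpace.single i t) := by
    intro i P hP
    have h1 : Tendsto (fun t : ℝ => (EuclideanSpace.single i t : R4)) (𝓝[>] 0) (𝓝 0) := by
      have h2 : Continuous fun t : ℝ => (EuclideanSpace.single i t : R4) := by
        have h3 : (fun t : ℝ => (EuclideanSpace.single i t : R4)) =
            fun t : ℝ => t • EuclideanSpace.single i (1 : ℝ) := by
          funext t
          ext j
          by_cases h : j = i <;> simp [h]
        rw [h3]
        fun_prop
      have h4 := h2.tendsto 0
      have h5 : (EuclideanSpace.single i (0 : ℝ) : R4) = 0 := by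
        ext j
        by_cases h : j = i <;> simp [h]
      rw [h5] at h4
      exact h4.mono_left nhdsWithin_le_nhds
    obtain ⟨t, ht, ht0⟩ := ((h1.eventually hP).and self_mem_nhdsWithin).exists
    exact ⟨t, ht0, ht⟩
  rcases h with h | ⟨k, hk, -, h⟩
  · exfalso
    obtain ⟨c, hi, hl, h0⟩ := Pool.Agent.N550.TS.Flm.exists_cell0 (n := 4) y
    have h1 : RegularAt (fun z => φ (c z)) 0 := RegularAt.pull (hl 0) (by rw [h0]; exact h)
    apply h1.2
    unfold IsCritical der
    rw [mfderiv_eq_fderiv]
    refine IsLocalMax.fderiv_eq_zero (Eventually.of_forall fun z => ?_)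
    show φ (c z) ≤ φ (c 0)
    rw [h0]
    exact hy _
  · have hk4 : k = 4 := by
      by_contra hne
      have hk3 : k ≤ 3 := by omega
      obtain ⟨c, -, -, hq⟩ := h
      obtain ⟨t, ht, ht2⟩ := line 3 _ hq
      have h5 : quad k (EuclideanSpace.single 3 t) = t ^ 2 := by
        unfold quad
        rw [Fin.sum_univ_four]
        simp
        intro h6
        omega
      rw [h5] at ht2
      have := hy (c (EuclideanSpace.single 3 t))
      nlinarith
    subst hk4
    obtain ⟨c, hc, hc0, hq⟩ := h
    obtain ⟨p, hp1, hp2, hp3, hp4⟩ := Pool.Agent.Y522.LD.exists_inverse (n := 4) hc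
    rw [hc0] at hp1 hp2 hp4
    have hpt : Tendsto p (𝓝 y) (𝓝 0) := by
      have := hp1.continuousAt.tendsto
      rwa [hp2] at this
    have hev : ∀ᶠ x in 𝓝 y, φ x = φ y + quad 4 (p x) := by
      filter_upwards [hp4, hpt.eventually hq] with x hx hx2
      rwa [hx] at hx2
    rw [eventually_nhdsWithin_iff]
    filter_upwards [hp4, hev.eventually_nhds, hp1.eventually] with x hx hx2 hx3 hne
    have hpx : p x ≠ 0 := fun h0 => hne (by rw [← hx, h0, hc0]; rfl)
    have h8 : 0 < ‖p x‖ := norm_pos_iff.2 hpx
    refine ⟨?_, ?_⟩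
    · rw [hx2.self_of_nhds, quad_four]
      nlinarith
    · have h9 : RegularAt (fun a => φ y + quad 4 (p a)) x :=
        RegularAt.pull (φ := fun z : R4 => φ y + quad 4 z) hx3 (regular_quad (φ y) hpx)
      exact h9.congr hx2

end proofs

theorem result (M N : Type) [TopologicalSpace M] [CompactSpace M] [T2Space M] [ConnectedSpace M]
    [ChartedSpace R4 M] [IsManifold (𝓡 4) ∞ M] [TopologicalSpace N] [T2Space N]
    [ChartedSpace R4 N] [IsManifold (𝓡 4) ∞ N] (f : M → N) (B : Set N) (hf : IsCollapsing f B) :
    HomeoOffPoint M N ∧ (HasMorseOffPoint M ↔ HasMorseOffPoint N) ∧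
      (HasMorse N → HasMorseOffPoint M) := by
  have hNc : CompactSpace N := by
    rw [← isCompact_univ_iff, ← hf.surjective.range_eq]
    exact isCompact_range hf.continuous
  have hNconn : ConnectedSpace N := hf.surjective.connectedSpace hf.continuous
  have hC : Pool.Agent.U898.CM.Mods.Cls 3 f B :=
    ⟨hf.continuous, hf.surjective, fun K hK => (hK.isClosed.preimage hf.continuous).isCompact,
      fun x hx => ⟨(hf.good x hx).1.contMDiffAt, (hf.good x hx).2⟩, hf.fibres⟩
  have hoff : Pool.Agent.U212.SM.OffPoint 4 M N :=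
    Pool.Agent.U898.SB.Kirby.offPoint (m := 3) hC (fun x hx => (hf.good x hx).1) hf.closed
      (Pool.Agent.N550.KH.Null.main 4 N B hf.thin)
  have h1 : HomeoOffPoint M N := fun y => Pool.Agent.U898.SB.Kirby.OffPoint.at hoff y
  have h2 : HomeoOffPoint N M := fun y => Pool.Agent.U898.SB.Kirby.OffPoint.at hoff.symm y
  refine ⟨h1, ⟨transfer h2, transfer h1⟩, fun h => transfer h1 ?_⟩
  obtain ⟨φ, hφ, hm⟩ := h
  obtain ⟨y, -, hy⟩ := isCompact_univ.exists_isMaxOn univ_nonempty hφ.continuousOn
  exact ⟨φ, y, hφ, strict_max (fun z => hy (mem_univ z)) (hm y), fun x _ => hm x⟩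

end Pool.Agent.Results.MP_f18604_gt.CollapsingInvariance
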